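import Pool.Agent.D0H92.L9.Ord

/-!
# Project L0 (helper92): the ordinates of the points of `y ^ 2 + D y = x ^ 3` over `ℚ₃(ω)`,
`D = 1 + 3 √-3 c`, modulo cubes and units which are `1` modulo `(√-3) ^ 3`: powers of `ω (1 - 3 c)`
-/

set_option autoImplicit false
set_option linter.unusedVariables false

namespace Pool.Agent.D0H92.L0

open Pool.Agent.Y692.QS
open Pool.Agent.Y715.T.Gi Pool.Agent.Y715.T.Nr Pool.Agent.Y715.T.Df Pool.Agent.Y715.T.Ell
open Pool.Agent.Y715.T.Red Pool.Agent.Y715.T.Thr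
open Pool.Agent.Y703.CT
open Pool.Agent.Y180.CT
open Pool.Agent.D0H92.L9

open scoped Classical

variable {I : PadicAlgCl 3}

/-- cubes of units are `± 1` modulo nine -/
lemma cube9 (hI : I ^ 2 + I + 1 = 0) {V : PadicAlgCl 3} (hV : V ∈ Kl I) (hV1 : ‖V‖ = 1) :
    ∃ ε : PadicAlgCl 3, (ε = 1 ∨ ε = -1) ∧ ∃ t ∈ Kl I, ‖t‖ ≤ 1 ∧ ε * V ^ 3 = 1 + 9 * t := by
  obtain ⟨ε, hε, h1⟩ : ∃ ε : PadicAlgCl 3, (ε = 1 ∨ ε = -1) ∧ ‖V - ε‖ < 1 := by
    rcases residue3 hI hV1.le hV with h | h | h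
    · exact absurd hV1 h.ne
    · exact ⟨1, Or.inl rfl, h⟩
    · exact ⟨-1, Or.inr rfl, by rwa [sub_neg_eq_add]⟩
  have hεm : ε ∈ Kl I := by
    rcases hε with rfl | rfl
    · exact one_mem _
    · exact neg_mem (one_mem _)
  have hεε : ε * ε = 1 := by rcases hε with rfl | rfl <;> ring
  have hεn : ‖ε‖ = 1 := by
    rcases hε with rfl | rfl
    · exact norm_one
    · rw [norm_neg, norm_one]
  obtain ⟨x, hx, hx1, ex⟩ := lam_div hI (mul_mem hεm (sub_mem hV hεm))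
    (by rw [norm_mul, hεn, one_mul]; exact h1)
  have h2 : ‖x - x ^ 3‖ < 1 := by
    rcases residue3 hI hx1 hx with h | h | h
    · have e : x - x ^ 3 = (1 - x ^ 2) * x := by ring
      rw [e]
      exact mul_lt (sub_le (by rw [norm_one]) (pow_le 2 hx1)) h
    · have e : x - x ^ 3 = (-(x + x ^ 2)) * (x - 1) := by ring
      rw [e]
      exact mul_lt (by rw [norm_neg]; exact add_le hx1 (pow_le 2 hx1)) h
    · have e : x - x ^ 3 = (x - x ^ 2) * (x + 1) := by ring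
      rw [e]
      exact mul_lt (sub_le hx1 (pow_le 2 hx1)) h
  obtain ⟨y, hy, hy1, ey⟩ := lam_div hI (sub_mem hx (pow_mem hx 3)) h2
  obtain ⟨m, hm⟩ : ∃ m : PadicAlgCl 3, m = 1 + 2 * I := ⟨_, rfl⟩
  have hll := lam_sq' hI
  rw [← hm] at ex ey hll
  refine ⟨ε, hε, -y - x ^ 2, sub_mem (neg_mem hy) (pow_mem hx 2),
    sub_le (by rwa [norm_neg]) (pow_le 2 hx1), ?_⟩
  have eV : V = ε * (1 + m * x) := by
    linear_combination ε * ex - (V - ε) * hεε
  have e1 : ε * V ^ 3 = (1 + m * x) ^ 3 := by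
    rw [eV]
    linear_combination (1 + m * x) ^ 3 * (ε * ε + 1) * hεε
  rw [e1]
  linear_combination (m * x ^ 3 + 3 * x ^ 2 + 3 * y) * hll + 3 * m * ey

lemma norm_sq' (hI : I ^ 2 + I + 1 = 0) :
    ‖(3 : PadicAlgCl 3) * (1 + 2 * I)‖ ^ 2 = (3 : ℝ) ^ (-3 : ℤ) := by
  rw [norm_mul, mul_pow, norm_three', norm_lam hI]
  norm_num

lemma small3 (hI : I ^ 2 + I + 1 = 0) {z : PadicAlgCl 3} {m : ℤ}
    (h : ‖z‖ ^ 2 = (3 : ℝ) ^ (3 * m)) (h1 : ‖z‖ < 1) :
    ‖z‖ ≤ ‖(3 : PadicAlgCl 3) * (1 + 2 * I)‖ := by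
  have h2 : ‖z‖ ^ 2 < 1 := pow_lt_one₀ (norm_nonneg _) h1 two_ne_zero
  have h3 : m ≤ -1 := by
    rw [h] at h2
    by_contra hcon
    push Not at hcon
    have : 0 ≤ 3 * m := by omega
    exact absurd (one_le_zpow₀ (by norm_num : (1 : ℝ) ≤ 3) this) (not_le.2 h2)
  have h4 : ‖z‖ ^ 2 ≤ ‖(3 : PadicAlgCl 3) * (1 + 2 * I)‖ ^ 2 := by
    rw [h, norm_sq' hI]
    exact zpow_le_zpow_right₀ (by norm_num) (by omega)
  exact (pow_le_pow_iff_left₀ (norm_nonneg _) (norm_nonneg _) two_ne_zero).1 h4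

lemma large3 (hI : I ^ 2 + I + 1 = 0) {z : PadicAlgCl 3} {m : ℤ}
    (h : ‖z‖ ^ 2 = (3 : ℝ) ^ (3 * m)) (h1 : 1 < ‖z‖) :
    1 ≤ ‖(3 : PadicAlgCl 3) * (1 + 2 * I)‖ * ‖z‖ := by
  have h2 : 1 < ‖z‖ ^ 2 := one_lt_pow₀ h1 two_ne_zero
  have h3 : 1 ≤ m := by
    rw [h] at h2
    by_contra hcon
    push Not at hcon
    have : 3 * m ≤ 0 := by omega
    exact absurd (zpow_le_one_of_nonpos₀ (by norm_num : (1 : ℝ) ≤ 3) this) (not_le.2 h2)
  have h4 : (1 : ℝ) ^ 2 ≤ (‖(3 : PadicAlgCl 3) * (1 + 2 * I)‖ * ‖z‖) ^ 2 := by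
    rw [mul_pow, h, norm_sq' hI, ← zpow_add₀ (by norm_num), one_pow]
    exact one_le_zpow₀ (by norm_num) (by omega)
  exact (pow_le_pow_iff_left₀ zero_le_one (by positivity) two_ne_zero).1 h4

/-- **the class of the ordinate** -/
theorem ord0 (hI : I ^ 2 + I + 1 = 0) {c X Y : PadicAlgCl 3} (hc : c ∈ Kl I)
    (hc1 : ‖c‖ ≤ 1) (hIm : I ∈ Kl I) (hX : X ∈ Kl I) (hY : Y ∈ Kl I) (hY0 : Y ≠ 0)
    (he : Y ^ 2 + (1 + 3 * ((1 + 2 * I) * c)) * Y = X ^ 3) :
    ∃ m : ℕ, ∃ V ∈ Kl I, V ≠ 0 ∧ ∃ z, U1 I z ∧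
      (I * (1 - 3 * c)) ^ m = Y * (V ^ 3 * z) := by
  have h3n := norm_three'
  have hlc := lt_le hI hc1
  have hDn := norm_one_add hlc
  have hD0 := one_add_ne hlc
  have hDm : 1 + 3 * ((1 + 2 * I) * c) ∈ Kl I :=
    add_mem (one_mem _) (mul_mem three_memK (mul_mem lam_mem hc))
  have h3 : (3 : PadicAlgCl 3) ≠ 0 := three_ne_zero
  have hD1 : ‖1 + 3 * ((1 + 2 * I) * c) - 1‖ ≤ ‖(3 : PadicAlgCl 3) * (1 + 2 * I)‖ := by
    have e : 1 + 3 * ((1 + 2 * I) * c) - 1 = (3 * (1 + 2 * I)) * c := by ring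
    rw [e, norm_mul]
    exact mul_le_of_le_one_right (norm_nonneg _) hc1
  obtain ⟨D, hD⟩ : ∃ D, D = 1 + 3 * ((1 + 2 * I) * c) := ⟨_, rfl⟩
  rw [← hD] at he hDn hD0 hDm hD1
  have he' : Y * (Y + D) = X ^ 3 := by rw [← he]; ring
  rcases lt_trichotomy ‖Y‖ 1 with h1 | h1 | h1
  · -- `Y` is small
    have h2 : ‖Y + D‖ = 1 := by
      rw [add_comm, eq_of_lt, hDn]
      rwa [hDn]
    have h4 : ‖Y‖ = ‖X‖ ^ 3 := by rw [← norm_pow, ← he', norm_mul, h2, mul_one]
    obtain ⟨m, hm⟩ := cube_val hI hY hX hY0 h4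
    have h5 := small3 hI hm h1
    have hX0 : X ≠ 0 := by
      rintro rfl
      rw [norm_zero, zero_pow three_ne_zero, norm_eq_zero] at h4
      exact hY0 h4
    have hX3 : X ^ 3 ≠ 0 := pow_ne_zero 3 hX0
    refine ⟨0, X⁻¹, inv_mem hX, inv_ne_zero hX0, Y + D, ?_, ?_⟩
    · refine U1.of hI (add_mem hY hDm) ?_
      have e : Y + D - 1 = Y + (D - 1) := by ring
      rw [e]
      exact add_le h5 hD1
    · rw [pow_zero, inv_pow]
      have e : Y * ((X ^ 3)⁻¹ * (Y + D)) = (Y * (Y + D)) / X ^ 3 := by ring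
      rw [e, he', div_self hX3]
  · -- `Y` is a unit
    by_cases h2 : ‖Y + D‖ < 1
    · have h5 : ‖Y + D‖ ≤ ‖(3 : PadicAlgCl 3) * (1 + 2 * I)‖ := by
        by_cases h6 : Y + D = 0
        · rw [h6, norm_zero]
          exact norm_nonneg _
        · have h4 : ‖Y + D‖ = ‖X‖ ^ 3 := by rw [← norm_pow, ← he', norm_mul, h1, one_mul]
          obtain ⟨m, hm⟩ := cube_val hI (add_mem hY hDm) hX h6 h4
          exact small3 hI hm h2
      have hz : U1 I (-Y) := by
        refine U1.of hI (neg_mem hY) ?_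
        have e : -Y - 1 = (D - 1) - (Y + D) := by ring
        rw [e]
        exact sub_le hD1 h5
      refine ⟨0, -1, neg_mem (one_mem _), neg_ne_zero.2 one_ne_zero, (-Y)⁻¹, hz.inv hI, ?_⟩
      have hz0 := hz.ne hI
      field_simp
    · -- `Y` and `Y + D` are units
      have h2' : ‖Y + D‖ = 1 :=
        le_antisymm (add_le h1.le hDn.le) (not_lt.1 h2)
      have hD1' : ‖D - 1‖ < 1 := by
        refine lt_of_le_of_lt hD1 ?_
        rw [norm_mul, h3n]
        have := norm_lam_lt hI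
        nlinarith
      have hY1 : ‖Y - 1‖ < 1 := by
        rcases residue3 hI h1.le hY with h3 | h3 | h3
        · exact absurd h1 h3.ne
        · exact h3
        · exfalso
          apply h2
          have e : Y + D = (Y + 1) + (D - 1) := by ring
          rw [e]
          exact add_lt h3 hD1'
      have hX1 : ‖X‖ = 1 := by
        have h4 : ‖X‖ ^ 3 = 1 := by rw [← norm_pow, ← he', norm_mul, h1, h2', one_mul]
        exact (pow_eq_one_iff_of_nonneg (norm_nonneg _) three_ne_zero).1 h4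
      obtain ⟨ε, hε, t, ht, ht1, et⟩ := cube9 hI hX hX1
      have h9n : ‖(9 : PadicAlgCl 3)‖ = 9⁻¹ := by
        have e : (9 : PadicAlgCl 3) = 3 * 3 := by norm_num
        rw [e, norm_mul, h3n]
        norm_num
      have h9t : ‖9 * t‖ < 1 := by
        rw [norm_mul, h9n]
        nlinarith
      obtain ⟨η, hη, hη1, eη⟩ := lam_div hI (sub_mem hY (one_mem _)) hY1
      have hXt : X ^ 3 = -1 - 9 * t := by
        rcases hε with rfl | rfl
        · exfalso
          have h5 : ‖X ^ 3 - 2‖ < 1 := by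
            have e : X ^ 3 - 2 = (Y + 2) * (Y - 1) + Y * (D - 1) := by rw [← he']; ring
            rw [e]
            exact add_lt (mul_lt (add_le h1.le two_le) hY1) (mul_lt h1.le hD1')
          have h6 : ‖(1 : PadicAlgCl 3)‖ < 1 := by
            have e : (1 : PadicAlgCl 3) = 9 * t - (X ^ 3 - 2) := by linear_combination et
            rw [e]
            exact sub_lt h9t h5
          rw [norm_one] at h6
          exact lt_irrefl _ h6
        · linear_combination -et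
      obtain ⟨m, hm⟩ : ∃ m : PadicAlgCl 3, m = 1 + 2 * I := ⟨_, rfl⟩
      have hll := lam_sq' hI
      have hl1 := norm_lam_lt hI
      have hlp := lam_pos hI
      have hls := norm_lam hI
      have hIn : ‖I‖ = 1 := by
        have h4 : ‖I‖ ^ 3 = 1 := by
          rw [← norm_pow]
          have e : I ^ 3 = 1 := by linear_combination (I - 1) * hI
          rw [e, norm_one]
        exact (pow_eq_one_iff_of_nonneg (norm_nonneg _) three_ne_zero).1 h4
      rw [← hm] at hD eη hll hl1 hlp hls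
      have h3m : ‖(3 : PadicAlgCl 3) * m‖ = ‖m‖ ^ 3 := by
        rw [norm_mul, h3n, pow_succ, hls]
      -- the product
      obtain ⟨A, hA⟩ : ∃ A, A = Y - (I - 3 * c) := ⟨_, rfl⟩
      obtain ⟨B, hB⟩ : ∃ B, B = Y - (I ^ 2 + 3 * c) := ⟨_, rfl⟩
      have hAB : A * B = 9 * (-t + c * η - c ^ 2) := by
        rw [hA, hB]
        rw [hD] at he
        rw [hXt] at he
        linear_combination he - 3 * m * c * eη - (3 * c * η) * hll +
          (-Y + (I - 1) - 3 * c) * hI - (3 * c) * hm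
      have hABn : ‖A‖ * ‖B‖ ≤ ‖m‖ ^ 2 * ‖m‖ ^ 2 := by
        rw [← norm_mul, hAB, norm_mul, h9n, hls]
        have h5 : ‖-t + c * η - c ^ 2‖ ≤ 1 :=
          sub_le (add_le (by rwa [norm_neg]) (mul_le hc1 hη1)) (pow_le 2 hc1)
        have h6 := norm_nonneg (-t + c * η - c ^ 2)
        nlinarith
      have hsub : ‖A - B‖ = ‖m‖ := by
        have e : A - B = -m + 3 * (2 * c) := by
          rw [hA, hB, hm]
          linear_combination hI
        have h5 : ‖3 * (2 * c)‖ < ‖m‖ := by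
          rw [norm_mul, h3n, ← hls, pow_two, mul_assoc]
          have h6 : ‖m‖ * ‖2 * c‖ < 1 := by
            rw [← norm_mul, mul_comm]
            exact mul_lt (mul_le two_le hc1) hl1
          have h7 := mul_lt_mul_of_pos_left h6 hlp
          rwa [mul_one] at h7
        rw [e, eq_of_lt, norm_neg]
        rwa [norm_neg]
      have hlm : ∀ a b : PadicAlgCl 3, ‖a‖ < ‖m‖ → ‖b‖ = ‖m‖ → ‖a‖ * ‖b‖ ≤ ‖m‖ ^ 2 * ‖m‖ ^ 2 →
          ‖a‖ ≤ ‖(3 : PadicAlgCl 3) * m‖ := by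
        intro a b _ hb hab
        rw [hb] at hab
        rw [h3m]
        have e : ‖m‖ ^ 2 * ‖m‖ ^ 2 = ‖m‖ ^ 3 * ‖m‖ := by ring
        rw [e] at hab
        exact le_of_mul_le_mul_right hab hlp
      have hcases : ‖A‖ ≤ ‖(3 : PadicAlgCl 3) * m‖ ∨ ‖B‖ ≤ ‖(3 : PadicAlgCl 3) * m‖ := by
        by_cases hAm : ‖A‖ < ‖m‖
        · left
          refine hlm A B hAm ?_ hABn
          have e : B = -(A - B) + A := by ring
          rw [e, eq_of_lt, norm_neg, hsub]
          rwa [norm_neg, hsub]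
        · right
          have hBm : ‖B‖ < ‖m‖ := by
            by_contra hcon
            push Not at hcon hAm
            have h5 : ‖m‖ * ‖m‖ ≤ ‖A‖ * ‖B‖ := mul_le_mul hAm hcon hlp.le (norm_nonneg _)
            have h6 : ‖m‖ ^ 2 * ‖m‖ ^ 2 < ‖m‖ * ‖m‖ := by
              have e6 : ‖m‖ * ‖m‖ = 3⁻¹ := by rw [← pow_two, hls]
              rw [hls, e6]
              norm_num
            linarith
          refine hlm B A hBm ?_ (by rwa [mul_comm])
          have e : A = (A - B) + B := by ring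
          rw [e, eq_of_lt, hsub]
          rwa [hsub]
      have hUm : I * (1 - 3 * c) ∈ Kl I :=
        mul_mem hIm (sub_mem (one_mem _) (mul_mem three_memK hc))
      have h3m' : ∀ x : PadicAlgCl 3, ‖x‖ ≤ 1 → ‖3 * m * x‖ ≤ ‖(3 : PadicAlgCl 3) * m‖ := by
        intro x hx
        rw [norm_mul]
        exact mul_le_of_le_one_right (norm_nonneg _) hx
      rcases hcases with h5 | h5
      · refine ⟨1, 1, one_mem _, one_ne_zero, (I * (1 - 3 * c)) / Y, ?_, ?_⟩
        · refine U1.div hI hUm hY h1 ?_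
          rw [← hm]
          have e : I * (1 - 3 * c) - Y = 3 * m * (c * I ^ 2) - A := by
            rw [hA, hm]
            linear_combination (-3 * c * (2 * I - 1)) * hI
          rw [e]
          exact sub_le (h3m' _ (mul_le hc1 (pow_le 2 hIn.le))) h5
        · rw [pow_one, one_pow, one_mul, mul_div_cancel₀ _ hY0]
      · refine ⟨2, 1, one_mem _, one_ne_zero, (I * (1 - 3 * c)) ^ 2 / Y, ?_, ?_⟩
        · refine U1.div hI (pow_mem hUm 2) hY h1 ?_
          rw [← hm]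
          have e : (I * (1 - 3 * c)) ^ 2 - Y = 3 * m * (c - m * (c ^ 2 * I ^ 2)) - B := by
            have e9 : 9 * (c ^ 2 * I ^ 2) = -(3 * m ^ 2) * (c ^ 2 * I ^ 2) := by rw [hll]; ring
            have e10 : (I * (1 - 3 * c)) ^ 2 - Y = I ^ 2 - 6 * c * I ^ 2 +
                9 * (c ^ 2 * I ^ 2) - Y := by ring
            rw [e10, e9, hB, hm]
            linear_combination (-6 * c) * hI
          rw [e]
          refine sub_le (h3m' _ (sub_le hc1 ?_)) h5
          exact mul_le hl1.le (mul_le (pow_le 2 hc1) (pow_le 2 hIn.le))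
        · rw [one_pow, one_mul, mul_div_cancel₀ _ hY0]
  · -- `Y` is large
    have hYd : ‖Y + D‖ = ‖Y‖ := by
      rw [eq_of_lt]
      rwa [hDn]
    have hnX : ‖Y‖ ^ 2 = ‖X‖ ^ 3 := by rw [← norm_pow X, ← he', norm_mul, hYd, pow_two]
    have hX0 : X ≠ 0 := by
      rintro rfl
      rw [norm_zero, zero_pow three_ne_zero] at hnX
      exact hY0 (norm_eq_zero.1 (pow_eq_zero_iff two_ne_zero |>.1 hnX))
    obtain ⟨m, hm⟩ := cube_val' hI hY hX hY0 hnX
    have h4 := large3 hI hm h1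
    have hz : U1 I (1 + D / Y) := by
      refine U1.of hI (add_mem (one_mem _) (div_mem hDm hY)) ?_
      have e : 1 + D / Y - 1 = D / Y := by ring
      rw [e, norm_div, hDn, div_le_iff₀ (by linarith)]
      exact h4
    refine ⟨0, X / Y, div_mem hX hY, div_ne_zero hX0 hY0, (1 + D / Y)⁻¹, hz.inv hI, ?_⟩
    have hz0 : 1 + D / Y ≠ 0 := hz.ne hI
    have e1 : Y * (X / Y) ^ 3 = 1 + D / Y := by
      rw [div_pow, ← he]
      field_simp
    rw [pow_zero, ← mul_assoc, e1, mul_inv_cancel₀ hz0]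

end Pool.Agent.D0H92.L0
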