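import Pool.Agent.D0H69.L0.StmS
import Pool.Agent.D0H43.L3.Chi
import Pool.Agent.D0H92.L9.Loc3N
import Pool.Agent.D0H92.L0.Ord0

/-!
# Project L0 (helper92): the local condition at the prime above three, for `D = 1` modulo
`(√-3) ^ 3`
-/

set_option autoImplicit false
set_option linter.unusedSectionVars false
set_option linter.unusedVariables false

namespace Pool.Agent.D0H92.L0

open WeierstrassCurve
open Pool.Agent.Y692.QS
open Pool.Agent.Y715.T.Gi Pool.Agent.Y715.T.Nr Pool.Agent.Y715.T.Df Pool.Agent.Y715.T.Ell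
open Pool.Agent.Y715.T.Red Pool.Agent.Y715.T.Thr
open Pool.Agent.Y703.CT
open Pool.Agent.Y180.CT
open Pool.Agent.N883.FF (nq)
open Pool.Agent.N883.FF.Chi (nq_mul nq_congr nq_int nq_unit)
open Pool.Agent.D0H43.L3 (yq)
open Pool.Agent.D0H92.L9

open scoped Classical

/-- the condition on the norm -/
lemma lam_dvd {D d₀ : Ei} (hd₀ : D - 1 = 3 * d₀) (hD9 : (9 : ℤ) ∣ nr D - 1) : ∃ c, d₀ = lam * c := by
  obtain ⟨r1, r2⟩ := d₀
  have hD : D = ⟨1 + 3 * r1, 3 * r2⟩ := by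
    have e : D = 1 + 3 * (⟨r1, r2⟩ : Ei) := by rw [← hd₀]; ring
    have h3 : (3 : Ei) = ⟨3, 0⟩ := by decide
    have h1 : (1 : Ei) = ⟨1, 0⟩ := by decide
    rw [e, h3, h1]
    ext <;> simp
  obtain ⟨k, hk⟩ := hD9
  rw [hD] at hk
  unfold nr at hk
  simp only at hk
  have h3 : (3 : ℤ) ∣ 2 * r1 - r2 := by
    refine ⟨k - (r1 ^ 2 - r1 * r2 + r2 ^ 2), ?_⟩
    linarith
  obtain ⟨s, hs⟩ := h3
  -- `r2 = 2 r1 - 3 s`; `lam * (x + y ω) = (x - 2 y) + (2 x - y) ω`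
  refine ⟨⟨r1 - 2 * s, -s⟩, ?_⟩
  have hr2 : r2 = 2 * r1 - 3 * s := by linarith
  rw [hr2]
  unfold lam
  ext
  · simp
  · simp
    ring

lemma yq_lam (c : Ei) : yq (1 + 3 * (lam * c)) = -nq (1 - 3 * c) := by
  have e : (1 - 3 * c : Ei) = 1 + 3 * (-c) := by ring
  rw [e, Pool.Agent.D0H43.L3.Chi.yq_one, Pool.Agent.D0H43.L3.Chi.nq_one]
  have e2 : (lam * c).im = 2 * c.re - c.im := by
    unfold lam
    simp
    ring
  rw [e2]
  have e3 : (-c).re = -c.re := rfl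
  have e4 : (-c).im = -c.im := rfl
  rw [e3, e4]
  push_cast
  have h2 : (2 : ZMod 3) = -1 := rfl
  rw [h2]
  ring

section final

variable {i₀ : QB} {hi : i₀ ^ 2 + i₀ + 1 = 0} {D : Ei} {u : QB} {a h : GK i₀ → ZMod 3}
  {ι : QB →ₐ[ℚ] PadicAlgCl 3} {R : Pt (PadicAlgCl 3)}

/-- elements which are cubes times units in `U1` -/
lemma fin_gen (hi : i₀ ^ 2 + i₀ + 1 = 0) (ι : QB →ₐ[ℚ] PadicAlgCl 3) {v q : Ei} {g : ℕ}
    (hv : IsUnit v) {V z : PadicAlgCl 3} (hV : V ∈ Kl (ι i₀))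
    (hz : U1 (ι i₀) z) (e : ev (ι i₀) (iota_sq' hi ι) (v * lam ^ g * (1 + 3 * q)) = V ^ 3 * z) :
    3 ∣ g ∧ (v = 1 ∨ v = -1) ∧ nq (1 + 3 * q) = 0 := by
  have hI := iota_sq' hi ι
  obtain ⟨t, ht, ht1, rfl⟩ := hz
  have hltm : (1 + 2 * ι i₀) * t ∈ Kl (ι i₀) := mul_mem lam_mem ht
  have hlt1 := lt_le hI ht1
  obtain ⟨h1, h2⟩ := fin_of hi ι hv hV hltm hlt1 e
  obtain ⟨g', hg'⟩ := h1
  refine ⟨⟨g', hg'⟩, h2, ?_⟩
  have hz : U1 (ι i₀) (1 + 3 * ((1 + 2 * ι i₀) * t)) := ⟨t, ht, ht1, rfl⟩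
  obtain ⟨L, hL⟩ : ∃ L, L = ev (ι i₀) hI lam := ⟨_, rfl⟩
  have hLm : L ∈ Kl (ι i₀) := by rw [hL]; exact ev_mem hI _
  have hL0 : L ≠ 0 := by rw [hL]; exact ev_ne hI prime_lam.ne_zero
  obtain ⟨ε, hε, hεv⟩ : ∃ ε : PadicAlgCl 3, (ε = 1 ∨ ε = -1) ∧ ev (ι i₀) hI v = ε := by
    rcases h2 with h2 | h2
    · exact ⟨1, Or.inl rfl, by rw [h2, map_one]⟩
    · exact ⟨-1, Or.inr rfl, by rw [h2, map_neg, map_one]⟩
  have hq1 : ‖ev (ι i₀) hI (1 + 3 * q)‖ = 1 := by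
    rw [map_add, map_one, map_mul, map_ofNat]
    exact norm_one_add (ev_le hI q)
  have hεn : ‖ε‖ = 1 := by
    rcases hε with rfl | rfl
    · exact norm_one
    · rw [norm_neg, norm_one]
  have e2 : (V / L ^ g') ^ 3 * (1 + 3 * ((1 + 2 * ι i₀) * t)) =
      ε * ev (ι i₀) hI (1 + 3 * q) := by
    have e3 : ε * L ^ g * ev (ι i₀) hI (1 + 3 * q) =
        V ^ 3 * (1 + 3 * ((1 + 2 * ι i₀) * t)) := by
      rw [← e, map_mul, map_mul, hεv, map_pow, hL]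
    rw [hg', mul_comm 3, pow_mul] at e3
    have hL3 : (L ^ g') ^ 3 ≠ 0 := pow_ne_zero 3 (pow_ne_zero _ hL0)
    rw [div_pow, div_mul_eq_mul_div, ← e3, div_eq_iff hL3]
    ring
  have hVn : ‖V / L ^ g'‖ = 1 := by
    have h6 := congrArg norm e2
    rw [norm_mul, norm_mul, norm_pow, hεn, hq1, hz.norm hI, mul_one, mul_one] at h6
    exact (pow_eq_one_iff_of_nonneg (norm_nonneg _) three_ne_zero).1 h6
  obtain ⟨ε', hε', -, hz'⟩ := cube_unit hI (div_mem hV (pow_mem hLm g')) hVn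
  have hz2 := hz'.mul hI hz
  have e4 : ε' * (V / L ^ g') ^ 3 * (1 + 3 * ((1 + 2 * ι i₀) * t)) =
      (ε' * ε) * ev (ι i₀) hI (1 + 3 * q) := by
    rw [mul_assoc, e2, mul_assoc]
  rw [e4] at hz2
  obtain ⟨t', ht', ht1', e5⟩ := hz2
  have hlt1' := lt_le hI ht1'
  have h3n : ‖(3 : PadicAlgCl 3)‖ < 1 := by rw [norm_three']; norm_num
  have hεε : ε' * ε = 1 := by
    have h7 : ε' * ε = 1 ∨ ε' * ε = -1 := by
      rcases hε with rfl | rfl <;> rcases hε' with rfl | rfl <;> simp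
    rcases h7 with h7 | h7
    · exact h7
    · exfalso
      rw [h7, map_add, map_one, map_mul, map_ofNat] at e5
      have e6 : (1 : PadicAlgCl 3) = 3 * (1 + ((1 + 2 * ι i₀) * t') +
          ev (ι i₀) hI q) := by linear_combination e5
      have h8 : ‖(3 : PadicAlgCl 3) * (1 + ((1 + 2 * ι i₀) * t') + ev (ι i₀) hI q)‖ < 1 := by
        rw [mul_comm]
        exact mul_lt (add_le (add_le norm_one.le hlt1') (ev_le hI q)) h3n
      rw [← e6, norm_one] at h8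
      exact lt_irrefl _ h8
  rw [hεε, one_mul, map_add, map_one, map_mul, map_ofNat] at e5
  have e6 : ev (ι i₀) hI q = (1 + 2 * ι i₀) * t' := by
    have h3 : (3 : PadicAlgCl 3) ≠ 0 := three_ne_zero
    exact mul_left_cancel₀ h3 (by linear_combination e5)
  have h9 : ‖ev (ι i₀) hI q‖ < 1 := by
    rw [e6, mul_comm]
    exact mul_lt ht1' (norm_lam_lt hI)
  obtain ⟨q2, hq2'⟩ := (dvd_iff hI prime_lam (lam_lt hI) q).2 h9
  rw [← nq_unit isUnit_one]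
  refine nq_congr (t := q2) ?_
  show _ = 3 * lam * _
  rw [hq2']
  ring

/-- the conclusion -/
lemma fin0 (hi : i₀ ^ 2 + i₀ + 1 = 0) (ι : QB →ₐ[ℚ] PadicAlgCl 3) {v q c : Ei} {g m : ℕ}
    (hv : IsUnit v) {V z : PadicAlgCl 3} (hV : V ∈ Kl (ι i₀))
    (hz : U1 (ι i₀) z) (e : ev (ι i₀) (iota_sq' hi ι) (v * lam ^ g * (1 + 3 * q)) *
      (ι i₀ * (1 - 3 * ev (ι i₀) (iota_sq' hi ι) c)) ^ m = V ^ 3 * z) :
    3 ∣ g ∧ ∃ b : ZMod 3, (v = w ^ b.val ∨ v = -w ^ b.val) ∧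
      nq (1 + 3 * q) + b * yq (1 + 3 * (lam * c)) = 0 := by
  have hI := iota_sq' hi ι
  have hU : ι i₀ * (1 - 3 * ev (ι i₀) hI c) = ev (ι i₀) hI (w * (1 - 3 * c)) := by
    rw [map_mul, map_sub, map_one, map_mul, map_ofNat, ev_w]
  rw [hU, ← map_pow, ← map_mul] at e
  obtain ⟨q', hq'⟩ : ∃ q', (1 + 3 * q) * (1 - 3 * c) ^ m = 1 + 3 * q' := by
    have h4 := sub_dvd_pow_sub_pow (1 - 3 * c) 1 m
    rw [one_pow] at h4
    obtain ⟨x1, h1⟩ := dvd_trans (⟨-c, by ring⟩ : (3 : Ei) ∣ 1 - 3 * c - 1) h4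
    have h1' : (1 - 3 * c) ^ m = 1 + 3 * x1 := by rw [← h1]; ring
    exact ⟨q + x1 + 3 * (q * x1), by rw [h1']; ring⟩
  have hnq : nq (1 + 3 * q') = nq (1 + 3 * q) + m * nq (1 - 3 * c) := by
    have hc : IsCoprime (1 - 3 * c) (3 : Ei) := ⟨1, c, by ring⟩
    rw [← hq', nq_mul (cop3 q) hc.pow_left, nq_pow hc]
  have ez : v * lam ^ g * (1 + 3 * q) * (w * (1 - 3 * c)) ^ m =
      (v * w ^ m) * lam ^ g * (1 + 3 * q') := by
    rw [← hq', mul_pow]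
    ring
  rw [ez] at e
  obtain ⟨h1, h2, h3⟩ := fin_gen hi ι (hv.mul (w_unit.pow m)) hV hz e
  refine ⟨h1, -(m : ZMod 3), ?_, ?_⟩
  · have hw : w ^ (-(m : ZMod 3)).val = (w : Ei) ^ (2 * m) := by
      rw [w_val (2 * m)]
      congr 2
      push_cast
      have : (2 : ZMod 3) = -1 := rfl
      rw [this]
      ring
    have hv' : v = (v * w ^ m) * w ^ (2 * m) := by
      rw [mul_assoc, ← pow_add]
      have : m + 2 * m = 3 * m := by ring
      rw [this, pow_mul, w3, one_pow, mul_one]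
    rw [hw]
    rcases h2 with h2 | h2
    · left
      rw [hv', h2, one_mul]
    · right
      rw [hv', h2]
      ring
  · rw [hnq] at h3
    rw [yq_lam]
    linear_combination h3

theorem core0 {c : Ei} (hT : Tw hi (1 + 3 * (lam * c)) u a)
    {v q : Ei} {g : ℕ} (hv : IsUnit v) (hK : Kc hi (v * lam ^ g * (1 + 3 * q)) h)
    (hS : St1 hi ι a h R) :
    3 ∣ g ∧ ∃ b : ZMod 3, (v = w ^ b.val ∨ v = -w ^ b.val) ∧
      nq (1 + 3 * q) + b * yq (1 + 3 * (lam * c)) = 0 := by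
  have hI := iota_sq' hi ι
  have hI3 : ι i₀ ^ 3 = 1 := by linear_combination (ι i₀ - 1) * hI
  have hIm : ι i₀ ∈ Kl (ι i₀) := fun τ hτ => hτ
  obtain ⟨d, hd⟩ : ∃ d, d = ev (ι i₀) hI c := ⟨_, rfl⟩
  have hdm : d ∈ Kl (ι i₀) := by rw [hd]; exact ev_mem hI _
  have hd1 : ‖d‖ ≤ 1 := by rw [hd]; exact ev_le hI c
  obtain ⟨dD, hdD⟩ : ∃ dD, dD = 1 + 3 * ((1 + 2 * ι i₀) * d) := ⟨_, rfl⟩
  have hdDm : dD ∈ Kl (ι i₀) := by
    rw [hdD]
    exact add_mem (one_mem _) (mul_mem three_memK (mul_mem lam_mem hdm))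
  have hdDe : ev (ι i₀) hI (1 + 3 * (lam * c)) = dD := by
    rw [map_add, map_one, map_mul, map_ofNat, map_mul, ev_lam, ← hd, hdD]
  have hzD : U1 (ι i₀) dD := ⟨d, hdm, hd1, hdD⟩
  have hdD0 : dD ≠ 0 := hzD.ne hI
  have hU3 : ι u ^ 3 = dD := by
    rw [← map_pow, hT.cube, iota_ev' hi ι, hdDe]
  have hU0 : ι u ≠ 0 := by
    intro h0
    rw [h0, zero_pow three_ne_zero] at hU3
    exact hdD0 hU3.symm
  -- the cube root
  obtain ⟨s, hs⟩ := IsAlgClosed.exists_pow_nat_eq (ev i₀ hi (v * lam ^ g * (1 + 3 * q)))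
    (n := 3) (by norm_num)
  have hZ : ι s ^ 3 = ev (ι i₀) hI (v * lam ^ g * (1 + 3 * q)) := by
    rw [← map_pow, hs, iota_ev' hi ι]
  have hts : ∀ (τ : Au 3) (σ : GK i₀), Cmp ι τ σ → τ (ι s) = ι i₀ ^ (h σ).val * ι s := by
    intro τ σ hc
    rw [hc, hK s hs σ, map_mul, map_pow]
  have hz0 : v * lam ^ g * (1 + 3 * q) ≠ 0 := by
    refine mul_ne_zero (mul_ne_zero hv.ne_zero (pow_ne_zero _ prime_lam.ne_zero)) ?_
    intro h0
    have h1 : ev (ι i₀) hI (1 + 3 * q) = 0 := by rw [h0, map_zero]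
    rw [map_add, map_one, map_mul, map_ofNat] at h1
    exact one_add_ne (ev_le hI q) h1
  have hZ0 : ι s ^ 3 ≠ 0 := by
    rw [hZ]
    exact ev_ne hI hz0
  have hs0 : ι s ≠ 0 := fun h0 => hZ0 (by rw [h0, zero_pow three_ne_zero])
  have hZm : ι s ^ 3 ∈ Kl (ι i₀) := by rw [hZ]; exact ev_mem hI _
  by_cases hQ0 : R - im (isE _) hI R = 0
  · -- `R` is a multiple of `T`
    obtain ⟨c', hc⟩ := ker_tt hI hQ0
    have hm : ι s ∈ Kl (ι i₀) := by
      intro τ hτ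
      obtain ⟨σ, hcm⟩ := exists_cmp ι τ hτ
      have h1 := hS τ σ hcm
      rw [hc, pm_tt, jj_tt, sub_self] at h1
      have h2 := tt_eq_zero.1 h1.symm
      rw [hts τ σ hcm, h2, ZMod.val_zero, pow_zero, one_mul]
    refine fin0 (q := q) (c := c) (m := 0) hi ι hv hm U1.one ?_
    rw [← hZ]
    ring
  · obtain ⟨x, y, hn, hR⟩ : ∃ x y, ∃ hn : (W0.baseChange (PadicAlgCl 3)).toAffine.Nonsingular x y,
        R = .some x y hn := by
      rcases R with _ | ⟨x, y, hn⟩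
      · exfalso
        apply hQ0
        show (0 : Pt (PadicAlgCl 3)) - im (isE _) hI 0 = 0
        rw [map_zero, sub_zero]
      · exact ⟨x, y, hn, rfl⟩
    have he := ((isE _).eqn x y).1 hn.1
    have hx : x ≠ 0 := by
      intro h0
      apply hQ0
      rw [hR, im_some, sub_eq_zero, Affine.Point.some.injEq]
      exact ⟨by rw [h0, mul_zero], rfl⟩
    obtain ⟨XQ, hnQ, eQ⟩ : ∃ XQ, ∃ hnQ : (W0.baseChange (PadicAlgCl 3)).toAffine.Nonsingular XQ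
        (gg (ι i₀) R ^ 3), R - im (isE _) hI R = .some XQ _ hnQ := by
      rw [hR]
      obtain ⟨XQ, hnQ, eQ, -⟩ := one_sub_im (isE _) hI hn hx
      exact ⟨XQ, hnQ, eQ⟩
    by_cases hG : gg (ι i₀) R = 0
    · -- `R - J R = T`
      have hlam := lam_ne (isE (PadicAlgCl 3)) hI
      have hy : y = ι i₀ ^ 2 := by
        rw [hR, gg_some, div_eq_zero_iff] at hG
        rcases hG with h1 | h1
        · exact sub_eq_zero.1 h1
        · exact absurd h1 (mul_ne_zero hlam hx)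
      have h0 := (isE (PadicAlgCl 3)).neg_nons hn
      have hR' : -R = .some x (-y - 1) h0 := by
        rw [hR]
        exact (isE _).neg_eq hn h0
      have hgg : gg (ι i₀) (-R) = 1 / x := by
        rw [hR', gg_some, hy, div_eq_div_iff (mul_ne_zero hlam hx) hx]
        linear_combination (-2 * x) * hI
      have hx3 : x ^ 3 = -1 := by
        rw [← he, hy]
        linear_combination (ι i₀ ^ 2 - ι i₀ + 1) * hI
      have hW3 : (ι u * gg (ι i₀) (-R)) ^ 3 = -dD := by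
        rw [hgg, mul_pow, hU3, div_pow, hx3, one_pow]
        ring
      have hm : ι s / (ι u * gg (ι i₀) (-R)) ∈ Kl (ι i₀) := by
        intro τ hτ
        obtain ⟨σ, hcm⟩ := exists_cmp ι τ hτ
        rw [map_div₀, hts τ σ hcm, tau_g hT (st1_neg hS) hR' hx hcm]
        have h1 := pow_three hI (-h σ)
        rw [neg_neg] at h1
        rw [← h1, mul_div_mul_left]
        exact pow_ne_zero _ (I_ne (isE (PadicAlgCl 3)) hI)
      refine fin0 (q := q) (c := c) (m := 0) hi ι hv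
        (V := -(ι s / (ι u * gg (ι i₀) (-R)))) (neg_mem hm) hzD ?_
      rw [← hZ, neg_pow, div_pow, hW3]
      field_simp
    · -- the general case
      have hW0 : ι u * gg (ι i₀) R ≠ 0 := mul_ne_zero hU0 hG
      have hm : ι s * (ι u * gg (ι i₀) R) ∈ Kl (ι i₀) := by
        intro τ hτ
        obtain ⟨σ, hcm⟩ := exists_cmp ι τ hτ
        rw [map_mul, hts τ σ hcm, tau_g hT hS hR hx hcm]
        have h1 := pow_cancel hI (h σ)
        linear_combination (ι s * (ι u * gg (ι i₀) R)) * h1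
      obtain ⟨W, hW⟩ : ∃ W, W = ι u * gg (ι i₀) R := ⟨_, rfl⟩
      rw [← hW] at hm hW0
      have hYm : W ^ 3 ∈ Kl (ι i₀) := by
        have e : W ^ 3 = (ι s * W) ^ 3 / ι s ^ 3 := by
          rw [mul_pow, mul_div_cancel_left₀ _ hZ0]
        rw [e]
        exact div_mem (pow_mem hm 3) hZm
      have hXm : ι u ^ 2 * XQ ∈ Kl (ι i₀) := tau_X hT hS eQ
      have heq := ((isE _).eqn _ _).1 hnQ.1
      have heY : (W ^ 3) ^ 2 + dD * W ^ 3 = (ι u ^ 2 * XQ) ^ 3 := by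
        rw [hW, ← hU3]
        linear_combination (ι u ^ 6) * heq
      rw [hdD] at heY
      obtain ⟨m, V, hV, hV0, z, hz, eY⟩ := ord0 hI hdm hd1 hIm hXm hYm (pow_ne_zero 3 hW0) heY
      rw [hd] at eY
      refine fin0 (q := q) (c := c) (m := m) hi ι hv
        (V := ι s * W * V) (mul_mem hm hV) hz ?_
      rw [← hZ, eY]
      ring

end final

/-- **L0-LOC3M** -/
theorem loc3m : Pool.Agent.D0H69.L0.S_LOC3M := by
  intro i₀ hi D hD3 hD9 u a hT h v q g hv hK hF ι R hS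
  obtain ⟨d₀, hd₀⟩ := hD3
  obtain ⟨c, rfl⟩ := lam_dvd hd₀ hD9
  have e : D = 1 + 3 * (lam * c) := by rw [← hd₀]; ring
  subst e
  exact core0 hT hv hK hS

end Pool.Agent.D0H92.L0
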